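import Mathlib
set_option autoImplicit false
namespace Pool.Agent.H.Hyp4
open MeasureTheory Set

variable {V : Type*} [NormedAddCommGroup V] [NormedSpace ℝ V] [CompleteSpace V]

/-- antiderivative vanishing at infinity -/
noncomputable def J (T : ℝ) (g : ℝ → V) (t : ℝ) : V := (∫ s in T..t, g s) - ∫ s in Ioi T, g s

theorem J_deriv (T : ℝ) {g : ℝ → V} (hg : Continuous g) (t : ℝ) :
    HasDerivAt (J T g) (g t) t := by
  unfold J
  exact (intervalIntegral.integral_hasDerivAt_right (hg.intervalIntegrable _ _)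
    (hg.stronglyMeasurableAtFilter _ _) hg.continuousAt).sub_const _

theorem J_cont (T : ℝ) {g : ℝ → V} (hg : Continuous g) : Continuous (J T g) :=
  continuous_iff_continuousAt.2 fun t => (J_deriv T hg t).continuousAt

omit [NormedSpace ℝ V] [CompleteSpace V] in
theorem integ_of_bd {T K p : ℝ} (hT : 0 < T) (hp : p < -1) {g : ℝ → V} (hg : Continuous g)
    (hb : ∀ s, T ≤ s → ‖g s‖ ≤ K * s ^ p) : IntegrableOn g (Ioi T) := by
  refine Integrable.mono' (((integrableOn_Ioi_rpow_of_lt hp hT)).const_mul K)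
    hg.aestronglyMeasurable ?_
  filter_upwards [ae_restrict_mem measurableSet_Ioi] with s hs
  exact hb s (le_of_lt hs)

omit [CompleteSpace V] in
theorem J_eq {T : ℝ} {g : ℝ → V} (hi : IntegrableOn g (Ioi T)) {t : ℝ} (ht : T ≤ t) :
    J T g t = - ∫ s in Ioi t, g s := by
  unfold J
  have h2 : IntegrableOn g (Ioi t) := hi.mono_set (Ioi_subset_Ioi ht)
  have := intervalIntegral.integral_interval_add_Ioi hi h2
  rw [← this]; abel

theorem J_bd {W : Type*} [NormedAddCommGroup W] [NormedSpace ℝ W] [CompleteSpace W]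
    (π : V →L[ℝ] W) {T K p : ℝ} (hT : 0 < T) (hp : p < -1) {g : ℝ → V}
    (hi : IntegrableOn g (Ioi T))
    (hb : ∀ s, T ≤ s → ‖π (g s)‖ ≤ K * s ^ p) {t : ℝ} (ht : T ≤ t) :
    ‖π (J T g t)‖ ≤ K / (-(p + 1)) * t ^ (p + 1) := by
  have h2 : IntegrableOn g (Ioi t) := hi.mono_set (Ioi_subset_Ioi ht)
  have ht0 : 0 < t := lt_of_lt_of_le hT ht
  rw [J_eq hi ht, map_neg, norm_neg, ← π.integral_comp_comm h2]
  have h3 : ‖∫ s in Ioi t, π (g s)‖ ≤ ∫ s in Ioi t, K * s ^ p := by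
    refine norm_integral_le_of_norm_le (((integrableOn_Ioi_rpow_of_lt hp ht0)).const_mul K) ?_
    filter_upwards [ae_restrict_mem measurableSet_Ioi] with s hs
    exact hb s (ht.trans (le_of_lt hs))
  refine h3.trans (le_of_eq ?_)
  rw [integral_const_mul, integral_Ioi_rpow_of_lt hp ht0]
  have : p + 1 ≠ 0 := by linarith
  field_simp

omit [CompleteSpace V] in
theorem J_sub {T : ℝ} {g h : ℝ → V} (hg : Continuous g) (hh : Continuous h)
    (hi : IntegrableOn g (Ioi T)) (hj : IntegrableOn h (Ioi T)) :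
    J T (fun s => g s - h s) = fun t => J T g t - J T h t := by
  funext t
  unfold J
  rw [intervalIntegral.integral_sub (hg.intervalIntegrable _ _) (hh.intervalIntegrable _ _),
    integral_sub hi hj]
  abel

theorem J_integ {T K p : ℝ} (hT : 0 < T) (hp : p < -2) {g : ℝ → V} (hg : Continuous g)
    (hb : ∀ s, T ≤ s → ‖g s‖ ≤ K * s ^ p) : IntegrableOn (J T g) (Ioi T) := by
  have hi := integ_of_bd hT (by linarith) hg hb
  refine integ_of_bd (K := K / (-(p+1))) (p := p + 1) hT (by linarith) (J_cont T hg) ?_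
  intro s hs
  exact J_bd (ContinuousLinearMap.id ℝ V) hT (by linarith) hi hb hs

theorem JJ_bd {W : Type*} [NormedAddCommGroup W] [NormedSpace ℝ W] [CompleteSpace W]
    (π : V →L[ℝ] W) {T K p K' p' : ℝ} (hT : 0 < T) (hp : p < -2) (hp' : p' < -2) {g : ℝ → V}
    (hg : Continuous g) (hb' : ∀ s, T ≤ s → ‖g s‖ ≤ K' * s ^ p')
    (hb : ∀ s, T ≤ s → ‖π (g s)‖ ≤ K * s ^ p) {t : ℝ} (ht : T ≤ t) :
    ‖π (J T (J T g) t)‖ ≤ K / (-(p + 1)) / (-(p + 1 + 1)) * t ^ (p + 1 + 1) := by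
  have hi := integ_of_bd hT (by linarith) hg hb'
  refine J_bd π hT (by linarith) (J_integ hT hp' hg hb') ?_ ht
  intro s hs
  exact J_bd π hT (by linarith) hi hb hs

/-- Fixed point at infinity. -/
theorem exists_sol {T K L : ℝ} (hT : 0 < T) (hL : 0 ≤ L) (G : ℝ → V → V)
    (hc : ∀ u : ℝ → V, Continuous u → (∀ s, ‖u s‖ ≤ 1) → Continuous fun s => G (max s T) (u s))
    (hb : ∀ s u, T ≤ s → ‖u‖ ≤ 1 → ‖G s u‖ ≤ K * s ^ (-(5/2) : ℝ))
    (hl : ∀ s u u', T ≤ s → ‖u‖ ≤ 1 → ‖u'‖ ≤ 1 → ‖G s u - G s u'‖ ≤ L * ‖u - u'‖ * s ^ (-3 : ℝ))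
    (hK : 0 ≤ K) (hKT : 4 / 3 * K * T ^ (-(1/2) : ℝ) ≤ 1) (hLT : L ≤ T) :
    ∃ g : ℝ → V, Continuous g ∧ (∀ s, T ≤ s → ‖g s‖ ≤ K * s ^ (-(5/2) : ℝ)) ∧
      ∀ t, T ≤ t → ‖J T (J T g) t‖ ≤ 1 ∧ g t = G t (J T (J T g) t) := by
  let X := Metric.closedBall (0 : BoundedContinuousFunction ℝ V) 1
  haveI : CompleteSpace X := Metric.isClosed_closedBall.completeSpace_coe
  haveI : Nonempty X := ⟨⟨0, by simp [X]⟩⟩
  have hX : ∀ u : X, ∀ s, ‖u.1 s‖ ≤ 1 := fun u s =>
    (u.1.norm_coe_le_norm s).trans (mem_closedBall_zero_iff.1 u.2)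
  let g : X → ℝ → V := fun u s => G (max s T) (u.1 s)
  have gc : ∀ u, Continuous (g u) := fun u => hc u.1 u.1.continuous (hX u)
  have gb : ∀ u s, T ≤ s → ‖g u s‖ ≤ K * s ^ (-(5/2) : ℝ) := by
    intro u s hs
    simp only [g, max_eq_left hs]
    exact hb s _ hs (hX u s)
  have JJ1 : ∀ u t, T ≤ t → ‖J T (J T (g u)) t‖ ≤ 1 := by
    intro u t ht
    have := JJ_bd (ContinuousLinearMap.id ℝ V) hT (by norm_num) (by norm_num) (gc u) (gb u)
      (gb u) ht
    refine this.trans (le_trans ?_ hKT)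
    have e : (-(5/2) + 1 + 1 : ℝ) = -(1/2) := by norm_num
    rw [e]
    have h1 : t ^ (-(1/2) : ℝ) ≤ T ^ (-(1/2) : ℝ) :=
      Real.rpow_le_rpow_of_nonpos hT ht (by norm_num)
    have e2 : K / -(-(5/2) + 1) / - -(1/2) = 4 / 3 * K := by ring
    rw [e2]
    exact mul_le_mul_of_nonneg_left h1 (by positivity)
  have cm : Continuous fun t : ℝ => max t T := continuous_id.max continuous_const
  let Φ : X → X := fun u => ⟨BoundedContinuousFunction.ofNormedAddCommGroup
      (fun t => J T (J T (g u)) (max t T)) ((J_cont T (J_cont T (gc u))).comp cm) 1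
      (fun t => JJ1 u _ (le_max_right _ _)), by
        simp only [X, Metric.mem_closedBall, dist_zero_right]
        exact BoundedContinuousFunction.norm_ofNormedAddCommGroup_le _ zero_le_one _⟩
  have hΦ : ContractingWith (1/2) Φ := by
    refine ⟨by norm_num, LipschitzWith.of_dist_le_mul fun u u' => ?_⟩
    rw [Subtype.dist_eq, Subtype.dist_eq]
    refine (BoundedContinuousFunction.dist_le (by positivity)).2 fun t => ?_
    change dist (J T (J T (g u)) (max t T)) (J T (J T (g u')) (max t T)) ≤ _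
    rw [dist_eq_norm]
    have i1 := integ_of_bd hT (by norm_num) (gc u) (gb u)
    have i2 := integ_of_bd hT (by norm_num) (gc u') (gb u')
    have j1 := J_integ hT (by norm_num) (gc u) (gb u)
    have j2 := J_integ hT (by norm_num) (gc u') (gb u')
    have e1 := J_sub (gc u) (gc u') i1 i2
    have e2 := J_sub (J_cont T (gc u)) (J_cont T (gc u')) j1 j2
    have e3 := congrFun e2 (max t T)
    rw [← e3, ← e1]
    have hd : ∀ s, T ≤ s → ‖g u s - g u' s‖ ≤ (L * dist u.1 u'.1) * s ^ (-3 : ℝ) := by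
      intro s hs
      simp only [g, max_eq_left hs]
      refine (hl s _ _ hs (hX u s) (hX u' s)).trans ?_
      have hs0 : 0 < s := lt_of_lt_of_le hT hs
      have : ‖u.1 s - u'.1 s‖ ≤ dist u.1 u'.1 := by
        rw [← dist_eq_norm]; exact BoundedContinuousFunction.dist_coe_le_dist s
      gcongr
    have := JJ_bd (ContinuousLinearMap.id ℝ V) hT (by norm_num) (by norm_num)
      ((gc u).sub (gc u')) hd hd (le_max_right t T)
    refine this.trans ?_
    have e : (-3 + 1 + 1 : ℝ) = -1 := by norm_num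
    rw [e, Real.rpow_neg_one]
    have h1 : (max t T)⁻¹ ≤ T⁻¹ := inv_anti₀ hT (le_max_right _ _)
    have h2 : L * T⁻¹ ≤ 1 := by rw [← div_eq_mul_inv, div_le_one hT]; exact hLT
    have h3 : 0 ≤ dist u.1 u'.1 := dist_nonneg
    have h4 : L * (max t T)⁻¹ ≤ 1 := (mul_le_mul_of_nonneg_left h1 hL).trans h2
    have e4 : L * dist u.1 u'.1 / -(-3 + 1) / - -1 * (max t T)⁻¹
        = (L * (max t T)⁻¹) * (dist u.1 u'.1 / 2) := by ring
    rw [e4]
    have : (L * (max t T)⁻¹) * (dist u.1 u'.1 / 2) ≤ 1 * (dist u.1 u'.1 / 2) :=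
      mul_le_mul_of_nonneg_right h4 (by positivity)
    push_cast
    linarith
  let u := hΦ.fixedPoint Φ
  have hu : Φ u = u := hΦ.fixedPoint_isFixedPt
  refine ⟨g u, gc u, gb u, fun t ht => ⟨JJ1 u t ht, ?_⟩⟩
  have h1 : u.1 t = J T (J T (g u)) t := by
    have : (Φ u).1 t = J T (J T (g u)) (max t T) := rfl
    rw [hu, max_eq_left ht] at this
    exact this
  rw [← h1]
  simp only [g, max_eq_left ht]

end Pool.Agent.H.Hyp4
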