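import Mathlib
import Pool.Agent.H.MP_32f877_an.J
set_option autoImplicit false
namespace Pool.Agent.H.Hyp4
open MeasureTheory Set

abbrev E3 := EuclideanSpace ℝ (Fin 3)
abbrev E := Fin 4 → E3

noncomputable def kf (d : E3) : E3 := (1 / ‖d‖ ^ 3) • d
noncomputable def F (q : E) : E := fun i => ∑ j ∈ Finset.univ.erase i, kf (q j - q i)

theorem kf_lip_aux {ρ : ℝ} (hρ : 0 < ρ) {a b : E3} (hb : ρ ≤ ‖b‖) (hab : ‖b‖ ≤ ‖a‖) :
    ‖kf a - kf b‖ ≤ 4 / ρ ^ 3 * ‖a - b‖ := by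
  have hb0 : 0 < ‖b‖ := lt_of_lt_of_le hρ hb
  have ha0 : 0 < ‖a‖ := lt_of_lt_of_le hb0 hab
  have ha : ρ ≤ ‖a‖ := hb.trans hab
  have e : kf a - kf b = (1 / ‖a‖ ^ 3) • (a - b) - (1 / ‖b‖ ^ 3 - 1 / ‖a‖ ^ 3) • b := by
    unfold kf; rw [smul_sub, sub_smul]; abel
  have hd : ‖a‖ - ‖b‖ ≤ ‖a - b‖ := norm_sub_norm_le a b
  have hn : 0 ≤ ‖a - b‖ := norm_nonneg _
  have h1 : 1 / ‖a‖ ^ 3 ≤ 1 / ρ ^ 3 := by gcongr
  have h0 : 0 ≤ 1 / ‖b‖ ^ 3 - 1 / ‖a‖ ^ 3 := by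
    have : 1 / ‖a‖ ^ 3 ≤ 1 / ‖b‖ ^ 3 := by gcongr
    linarith
  have h2 : (1 / ‖b‖ ^ 3 - 1 / ‖a‖ ^ 3) * ‖b‖ ≤ 3 / ρ ^ 3 * ‖a - b‖ := by
    have e2 : (1 / ‖b‖ ^ 3 - 1 / ‖a‖ ^ 3) * ‖b‖ =
        (‖a‖ - ‖b‖) * ((‖a‖ ^ 2 + ‖a‖ * ‖b‖ + ‖b‖ ^ 2) / (‖a‖ ^ 3 * ‖b‖ ^ 2)) := by
      field_simp; ring
    have h3 : (‖a‖ ^ 2 + ‖a‖ * ‖b‖ + ‖b‖ ^ 2) / (‖a‖ ^ 3 * ‖b‖ ^ 2) ≤ 3 / ρ ^ 3 := by
      have h4 : ‖a‖ ^ 2 + ‖a‖ * ‖b‖ + ‖b‖ ^ 2 ≤ 3 * ‖a‖ ^ 2 := by nlinarith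
      have h5 : ρ ^ 3 ≤ ‖a‖ * ‖b‖ ^ 2 := by
        have : ρ ^ 3 = ρ * ρ ^ 2 := by ring
        rw [this]; gcongr
      calc _ ≤ 3 * ‖a‖ ^ 2 / (‖a‖ ^ 3 * ‖b‖ ^ 2) := by gcongr
        _ = 3 / (‖a‖ * ‖b‖ ^ 2) := by field_simp
        _ ≤ 3 / ρ ^ 3 := by gcongr
    rw [e2, mul_comm]
    exact mul_le_mul h3 hd (by linarith) (by positivity)
  rw [e]
  refine (norm_sub_le _ _).trans ?_
  rw [norm_smul, norm_smul, Real.norm_of_nonneg h0, Real.norm_of_nonneg (by positivity)]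
  have h6 : 1 / ‖a‖ ^ 3 * ‖a - b‖ ≤ 1 / ρ ^ 3 * ‖a - b‖ := by gcongr
  have e3 : 4 / ρ ^ 3 * ‖a - b‖ = 1 / ρ ^ 3 * ‖a - b‖ + 3 / ρ ^ 3 * ‖a - b‖ := by ring
  linarith

theorem kf_lip {ρ : ℝ} (hρ : 0 < ρ) {a b : E3} (ha : ρ ≤ ‖a‖) (hb : ρ ≤ ‖b‖) :
    ‖kf a - kf b‖ ≤ 4 / ρ ^ 3 * ‖a - b‖ := by
  rcases le_total ‖b‖ ‖a‖ with h | h
  · exact kf_lip_aux hρ hb h
  · rw [norm_sub_rev, norm_sub_rev a b]; exact kf_lip_aux hρ ha h

def Sep (ρ : ℝ) (q : E) : Prop := ∀ i j, j ≠ i → ρ ≤ ‖q j - q i‖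

theorem F_lip {ρ : ℝ} (hρ : 0 < ρ) {q r : E} (hq : Sep ρ q) (hr : Sep ρ r) :
    ‖F q - F r‖ ≤ 24 / ρ ^ 3 * ‖q - r‖ := by
  refine (pi_norm_le_iff_of_nonneg (by positivity)).2 fun i => ?_
  simp only [F, Pi.sub_apply]
  rw [← Finset.sum_sub_distrib]
  refine (norm_sum_le _ _).trans ?_
  have : ∀ j ∈ Finset.univ.erase i, ‖kf (q j - q i) - kf (r j - r i)‖ ≤ 8 / ρ ^ 3 * ‖q - r‖ := by
    intro j hj
    have hji := (Finset.mem_erase.1 hj).1
    refine (kf_lip hρ (hq i j hji) (hr i j hji)).trans ?_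
    have e : q j - q i - (r j - r i) = (q - r) j - (q - r) i := by simp only [Pi.sub_apply]; abel
    have h : ‖q j - q i - (r j - r i)‖ ≤ 2 * ‖q - r‖ := by
      rw [e]
      have := norm_sub_le ((q - r) j) ((q - r) i)
      have h1 := norm_le_pi_norm (q - r) j
      have h2 := norm_le_pi_norm (q - r) i
      linarith
    calc _ ≤ 4 / ρ ^ 3 * (2 * ‖q - r‖) := by gcongr
      _ = _ := by ring
  refine (Finset.sum_le_card_nsmul _ _ _ this).trans (le_of_eq ?_)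
  rw [Finset.card_erase_of_mem (Finset.mem_univ _)]
  simp; ring

theorem F_cont {q : ℝ → E} (hq : Continuous q) (hs : ∀ s, Sep 1 (q s)) :
    Continuous fun s => F (q s) := by
  refine continuous_pi fun i => continuous_finset_sum _ fun j hj => ?_
  have hji := (Finset.mem_erase.1 hj).1
  have c : Continuous fun s => q s j - q s i :=
    ((continuous_apply j).comp hq).sub ((continuous_apply i).comp hq)
  unfold kf
  refine Continuous.smul (continuous_const.div (c.norm.pow 3) fun s => ?_) c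
  have := hs s i j hji
  have h : 0 < ‖q s j - q s i‖ := by linarith
  exact (pow_pos h 3).ne'

/-- transverse bound -/
theorem F_coord {ρ B : ℝ} (hρ : 0 < ρ) {q : E} (hq : Sep ρ q) (k : Fin 3)
    (hB : ∀ i j, |q j k - q i k| ≤ B) (i : Fin 4) : |F q i k| ≤ 3 * B / ρ ^ 3 := by
  have e : F q i k = ∑ j ∈ Finset.univ.erase i, (1 / ‖q j - q i‖ ^ 3) * (q j k - q i k) := by
    simp [F, kf]
  rw [e]
  refine (Finset.abs_sum_le_sum_abs _ _).trans ?_
  have : ∀ j ∈ Finset.univ.erase i, |(1 / ‖q j - q i‖ ^ 3) * (q j k - q i k)| ≤ B / ρ ^ 3 := by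
    intro j hj
    have hji := (Finset.mem_erase.1 hj).1
    have h := hq i j hji
    have h0 : 0 < ‖q j - q i‖ := lt_of_lt_of_le hρ h
    rw [abs_mul, abs_of_pos (by positivity)]
    have h1 : 1 / ‖q j - q i‖ ^ 3 ≤ 1 / ρ ^ 3 := by gcongr
    calc _ ≤ 1 / ρ ^ 3 * B := mul_le_mul h1 (hB i j) (abs_nonneg _) (by positivity)
      _ = _ := by ring
  refine (Finset.sum_le_card_nsmul _ _ _ this).trans (le_of_eq ?_)
  rw [Finset.card_erase_of_mem (Finset.mem_univ _)]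
  simp; ring

noncomputable def e0 : E3 := !₂[1, 0, 0]
noncomputable def av : Fin 4 → ℝ := ![-3, -1, 1, 3]
noncomputable def bw : Fin 4 → ℝ := ![-49/144, -1/16, 1/16, 49/144]
noncomputable def vv : E := fun i => av i • e0
noncomputable def ww : E := fun i => bw i • e0
noncomputable def cc : E := ![!₂[2000, 1, 0], !₂[0, 0, 1], !₂[0, 0, -1], !₂[2000, -1, 0]]
noncomputable def base (s : ℝ) : E := s • vv + Real.log s • ww + cc

theorem norm_e0 : ‖e0‖ = 1 := by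
  simp [e0, EuclideanSpace.norm_eq, Fin.sum_univ_three]

theorem kf_e0 (r : ℝ) : kf (r • e0) = (r / |r| ^ 3) • e0 := by
  unfold kf
  rw [norm_smul, norm_e0, smul_smul, mul_one, Real.norm_eq_abs]
  congr 1; ring

theorem F_vv {s : ℝ} (hs : 0 < s) : F (s • vv) = (-(1 / s ^ 2)) • ww := by
  funext i
  have e : ∀ j, (s • vv) j - (s • vv) i = (s * (av j - av i)) • e0 := by
    intro j; simp only [Pi.smul_apply, vv, smul_smul, ← sub_smul]; congr 1; ring
  have e' : F (s • vv) i = ∑ j ∈ Finset.univ.erase i, kf ((s * (av j - av i)) • e0) := by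
    simp only [F, e]
  rw [e']
  simp only [kf_e0, ← Finset.sum_smul, Pi.smul_apply, ww, smul_smul]
  congr 1
  rw [Finset.sum_erase _ (by simp), Fin.sum_univ_four]
  simp only [abs_mul, abs_of_pos hs]
  fin_cases i <;> simp [av, bw] <;> norm_num <;> field_simp <;> norm_num

theorem coord_le (d : E3) (k : Fin 3) : |d k| ≤ ‖d‖ := by
  simpa using PiLp.norm_apply_le d k

theorem sep_vv {s : ℝ} (hs : 0 < s) : Sep s (s • vv) := by
  intro i j hji
  have e : (s • vv) j - (s • vv) i = (s * (av j - av i)) • e0 := by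
    simp only [Pi.smul_apply, vv, smul_smul, ← sub_smul]; congr 1; ring
  rw [e, norm_smul, norm_e0, mul_one, Real.norm_eq_abs, abs_mul, abs_of_pos hs]
  have : 1 ≤ |av j - av i| := by
    fin_cases i <;> fin_cases j <;> simp [av] at hji ⊢ <;> norm_num
  nlinarith

theorem log_le_sqrt {s : ℝ} (hs : 0 < s) : Real.log s ≤ 2 * √s := by
  have h := Real.log_le_sub_one_of_pos (Real.sqrt_pos.2 hs)
  rw [Real.log_sqrt hs.le] at h
  linarith

theorem sqrt_facts {s : ℝ} (hs : 10 ^ 8 ≤ s) : 10000 ≤ √s ∧ 10000 * √s ≤ s := by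
  have h1 : (10000 : ℝ) ≤ √s := Real.le_sqrt_of_sq_le (by linarith)
  have h2 : √s * √s = s := Real.mul_self_sqrt (by linarith)
  exact ⟨h1, by nlinarith⟩

theorem base_x (s : ℝ) (i : Fin 4) : base s i 0 = s * av i + Real.log s * bw i + cc i 0 := by
  simp [base, vv, ww, e0]

theorem base_t (s : ℝ) (i : Fin 4) {k : Fin 3} (hk : k ≠ 0) : base s i k = cc i k := by
  fin_cases k
  · exact absurd rfl hk
  · simp [base, vv, ww, e0]
  · simp [base, vv, ww, e0]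

theorem u_coord {u : E} (hu : ‖u‖ ≤ 1) (i : Fin 4) (k : Fin 3) : |u i k| ≤ 1 :=
  (coord_le _ _).trans ((norm_le_pi_norm u i).trans hu)

theorem sep_base {s : ℝ} (hs : 10 ^ 8 ≤ s) {u : E} (hu : ‖u‖ ≤ 1) : Sep s (base s + u) := by
  intro i j hji
  refine le_trans ?_ (coord_le _ 0)
  have e : ((base s + u) j - (base s + u) i) 0 = s * (av j - av i) +
      (Real.log s * (bw j - bw i) + (cc j 0 - cc i 0) + (u j 0 - u i 0)) := by
    simp only [Pi.add_apply, PiLp.sub_apply, PiLp.add_apply, base_x]; ring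
  rw [e]
  have hs0 : 0 < s := by linarith
  have h1 : 2 ≤ |av j - av i| := by
    fin_cases i <;> fin_cases j <;> simp [av] at hji ⊢ <;> norm_num
  have h2 : |bw j - bw i| ≤ 1 := by
    fin_cases i <;> fin_cases j <;> simp [bw] <;> norm_num [abs_le]
  have h3 : |cc j 0 - cc i 0| ≤ 2000 := by
    fin_cases i <;> fin_cases j <;> simp [cc]
  have h4 := u_coord hu i 0
  have h5 := u_coord hu j 0
  have hl0 : 0 ≤ Real.log s := Real.log_nonneg (by linarith)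
  have hl := log_le_sqrt hs0
  obtain ⟨q1, q2⟩ := sqrt_facts hs
  have h6 : |Real.log s * (bw j - bw i)| ≤ Real.log s := by
    rw [abs_mul, abs_of_nonneg hl0]; nlinarith
  have h7 : 2 * s ≤ |s * (av j - av i)| := by
    rw [abs_mul, abs_of_pos hs0]; nlinarith
  have h8 : |Real.log s * (bw j - bw i) + (cc j 0 - cc i 0) + (u j 0 - u i 0)| ≤ s := by
    rw [abs_le] at *
    constructor <;> linarith [h6.1, h6.2, h3.1, h3.2, h4.1, h4.2, h5.1, h5.2]
  have h9 := abs_add_le (s * (av j - av i) +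
      (Real.log s * (bw j - bw i) + (cc j 0 - cc i 0) + (u j 0 - u i 0)))
      (-(Real.log s * (bw j - bw i) + (cc j 0 - cc i 0) + (u j 0 - u i 0)))
  rw [abs_neg, add_neg_cancel_right] at h9
  linarith

theorem norm_ww : ‖ww‖ ≤ 1 := by
  refine (pi_norm_le_iff_of_nonneg zero_le_one).2 fun i => ?_
  simp only [ww, norm_smul, norm_e0, mul_one, Real.norm_eq_abs]
  fin_cases i <;> simp [bw] <;> norm_num [abs_le]

theorem norm_cc : ‖cc‖ ≤ 2001 := by
  refine (pi_norm_le_iff_of_nonneg (by norm_num)).2 fun i => ?_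
  rw [EuclideanSpace.norm_eq]
  refine Real.sqrt_le_iff.2 ⟨by norm_num, ?_⟩
  fin_cases i <;> simp [cc, Fin.sum_univ_three] <;> norm_num

noncomputable def G (s : ℝ) (u : E) : E := F (base s + u) - F (s • vv)

theorem rpow_m3 {s : ℝ} (hs : 0 < s) : s ^ (-3 : ℝ) = 1 / s ^ 3 := by
  rw [Real.rpow_neg hs.le, one_div]; norm_cast

theorem G_bd {s : ℝ} {u : E} (hs : 10 ^ 8 ≤ s) (hu : ‖u‖ ≤ 1) :
    ‖G s u‖ ≤ 72 * s ^ (-(5/2) : ℝ) := by
  have hs0 : 0 < s := by linarith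
  refine (F_lip hs0 (sep_base hs hu) (sep_vv hs0)).trans ?_
  have e : base s + u - s • vv = Real.log s • ww + cc + u := by unfold base; abel
  have hl0 : 0 ≤ Real.log s := Real.log_nonneg (by linarith)
  have hl := log_le_sqrt hs0
  obtain ⟨q1, q2⟩ := sqrt_facts hs
  have h1 : ‖base s + u - s • vv‖ ≤ 3 * √s := by
    rw [e]
    have a1 := norm_add_le (Real.log s • ww + cc) u
    have a2 := norm_add_le (Real.log s • ww) cc
    have a3 : ‖Real.log s • ww‖ ≤ Real.log s := by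
      rw [norm_smul, Real.norm_of_nonneg hl0]
      nlinarith [norm_ww, norm_nonneg ww]
    linarith [norm_cc]
  have e2 : s ^ (-(5/2) : ℝ) = √s / s ^ 3 := by
    rw [div_eq_mul_one_div (√s), Real.sqrt_eq_rpow, ← rpow_m3 hs0, ← Real.rpow_add hs0]; norm_num
  rw [e2]
  calc _ ≤ 24 / s ^ 3 * (3 * √s) := by gcongr
    _ = _ := by ring

theorem G_lip {s : ℝ} {u u' : E} (hs : 10 ^ 8 ≤ s) (hu : ‖u‖ ≤ 1) (hu' : ‖u'‖ ≤ 1) :
    ‖G s u - G s u'‖ ≤ 24 * ‖u - u'‖ * s ^ (-3 : ℝ) := by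
  have hs0 : 0 < s := by linarith
  have e : G s u - G s u' = F (base s + u) - F (base s + u') := by unfold G; abel
  rw [e, rpow_m3 hs0]
  refine (F_lip hs0 (sep_base hs hu) (sep_base hs hu')).trans (le_of_eq ?_)
  rw [add_sub_add_left_eq_sub]; ring

theorem G_coord {s : ℝ} {u : E} (hs : 10 ^ 8 ≤ s) (hu : ‖u‖ ≤ 1) (i : Fin 4) {k : Fin 3}
    (hk : k ≠ 0) : |G s u i k| ≤ 12 * s ^ (-3 : ℝ) := by
  have hs0 : 0 < s := by linarith
  have e : G s u i k = F (base s + u) i k := by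
    unfold G
    rw [F_vv hs0]
    have : ww i k = 0 := by
      fin_cases k
      · exact absurd rfl hk
      · simp [ww, e0]
      · simp [ww, e0]
    simp [this]
  rw [e, rpow_m3 hs0]
  refine (F_coord (B := 4) hs0 (sep_base hs hu) k ?_ i).trans (le_of_eq (by ring))
  intro a b
  simp only [Pi.add_apply, PiLp.add_apply, base_t s _ hk]
  have h4 := u_coord hu a k
  have h5 := u_coord hu b k
  have h6 : ∀ a, |cc a k| ≤ 1 := by
    intro a
    fin_cases k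
    · exact absurd rfl hk
    · fin_cases a <;> simp [cc]
    · fin_cases a <;> simp [cc]
  have h7 := h6 a
  have h8 := h6 b
  rw [abs_le] at *
  constructor <;> linarith [h4.1, h4.2, h5.1, h5.2, h7.1, h7.2, h8.1, h8.2]

theorem G_cont (u : ℝ → E) (hu : Continuous u) (hb : ∀ s, ‖u s‖ ≤ 1) :
    Continuous fun s => G (max s (10 ^ 8)) (u s) := by
  have cm : Continuous fun t : ℝ => max t (10 ^ 8) := continuous_id.max continuous_const
  have hm : ∀ t : ℝ, (10 : ℝ) ^ 8 ≤ max t (10 ^ 8) := fun t => le_max_right _ _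
  have cl : Continuous fun t : ℝ => Real.log (max t (10 ^ 8)) :=
    cm.log fun t => by have := hm t; linarith
  unfold G
  refine (F_cont ?_ ?_).sub (F_cont (cm.smul continuous_const) ?_)
  · unfold base
    exact (((cm.smul continuous_const).add (cl.smul continuous_const)).add continuous_const).add hu
  · intro s i j h
    have := sep_base (hm s) (hb s) i j h
    have := hm s
    linarith
  · intro s i j h
    have h0 := hm s
    have := sep_vv (s := max s (10 ^ 8)) (by linarith) i j h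
    linarith

theorem exists_U : ∃ U P : ℝ → E, ∀ t, 10 ^ 8 ≤ t → HasDerivAt U (P t) t ∧
    HasDerivAt P (G t (U t)) t ∧ ‖U t‖ ≤ 1 ∧ ∀ i k, k ≠ 0 → |U t i k| ≤ 6 / t := by
  have hT : (0 : ℝ) < 10 ^ 8 := by norm_num
  obtain ⟨g, gc, gb, hg⟩ := exists_sol (T := 10 ^ 8) (K := 72) (L := 24) hT (by norm_num) G G_cont
    (fun s u hs hu => G_bd hs hu) (fun s u u' hs hu hu' => G_lip hs hu hu') (by norm_num)
    (by
      have : ((10 : ℝ) ^ 8) ^ (-(1/2) : ℝ) = 1 / 10000 := by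
        rw [Real.rpow_neg hT.le, ← Real.sqrt_eq_rpow,
          show (10 : ℝ) ^ 8 = 10000 ^ 2 by norm_num, Real.sqrt_sq (by norm_num)]
        norm_num
      rw [this]; norm_num) (by norm_num)
  refine ⟨J (10 ^ 8) (J (10 ^ 8) g), J (10 ^ 8) g, fun t ht => ⟨J_deriv _ (J_cont _ gc) t, ?_,
    (hg t ht).1, fun i k hk => ?_⟩⟩
  · rw [← (hg t ht).2]; exact J_deriv _ gc t
  · let π : E →L[ℝ] ℝ := (EuclideanSpace.proj k).comp (ContinuousLinearMap.proj i)
    have hπ : ∀ x : E, π x = x i k := fun x => rfl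
    have := JJ_bd π (K := 12) (p := -3) hT (by norm_num) (by norm_num) gc gb (fun s hs => by
      rw [hπ, (hg s hs).2, Real.norm_eq_abs]
      exact G_coord hs (hg s hs).1 i hk) ht
    rw [hπ, Real.norm_eq_abs] at this
    refine this.trans (le_of_eq ?_)
    have e : (-3 + 1 + 1 : ℝ) = -1 := by norm_num
    rw [e, Real.rpow_neg_one]; ring

end Pool.Agent.H.Hyp4
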