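import Mathlib
import Pool.Agent.H.MP_32f877_an.Force
set_option autoImplicit false
namespace Pool.Agent.H.Hyp4
open MeasureTheory Set

theorem perr {y z a b ε : ℝ} (hy : |y| ≤ 2) (hz : |z| ≤ 2) (ha : |a| ≤ ε) (hb : |b| ≤ ε)
    (hε : ε ≤ 1) : |(y + a) * (z + b) - y * z| ≤ 5 * ε := by
  have e : (y + a) * (z + b) - y * z = y * b + a * z + a * b := by ring
  have h0 : 0 ≤ ε := (abs_nonneg _).trans ha
  have h1 : |y * b| ≤ 2 * ε := by rw [abs_mul]; gcongr
  have h2 : |a * z| ≤ ε * 2 := by rw [abs_mul]; gcongr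
  have h3 : |a * b| ≤ ε * 1 := by rw [abs_mul]; gcongr; exact hb.trans hε
  rw [e]
  have := abs_add_le (y * b + a * z) (a * b)
  have := abs_add_le (y * b) (a * z)
  linarith

theorem terr {x d t : ℝ} (ht : 0 < t) (hx : |x| ≤ 7 * t) (hd : |d| ≤ 10 * (12 / t)) :
    |x * d| ≤ 840 := by
  rw [abs_mul]
  calc _ ≤ (7 * t) * (10 * (12 / t)) := by gcongr
    _ = 840 := by field_simp; norm_num

theorem det_est {x1 x2 x3 a1 a2 a3 b1 b2 b3 t : ℝ} (ht : 12 ≤ t)
    (h1 : |x1| ≤ 7 * t) (h2 : |x2| ≤ 7 * t) (h3 : |x3| ≤ 7 * t)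
    (ha1 : |a1| ≤ 12 / t) (ha2 : |a2| ≤ 12 / t) (ha3 : |a3| ≤ 12 / t)
    (hb1 : |b1| ≤ 12 / t) (hb2 : |b2| ≤ 12 / t) (hb3 : |b3| ≤ 12 / t) :
    |x1 * ((-1 + a2) * (0 + b3) - (-2 + a3) * (-1 + b2))
      + x2 * ((-2 + a3) * (1 + b1) - (-1 + a1) * (0 + b3))
      + x3 * ((-1 + a1) * (-1 + b2) - (-1 + a2) * (1 + b1))
      - (2 * x3 - 2 * x1 - 2 * x2)| ≤ 2520 := by
  have ht0 : 0 < t := by linarith
  have hε : 12 / t ≤ 1 := by rw [div_le_one ht0]; exact ht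
  have n1 : |(-1 : ℝ)| ≤ 2 := by norm_num
  have n0 : |(0 : ℝ)| ≤ 2 := by norm_num
  have p1 : |(1 : ℝ)| ≤ 2 := by norm_num
  have n2 : |(-2 : ℝ)| ≤ 2 := by norm_num
  have q1 := perr n1 n0 ha2 hb3 hε
  have q2 := perr n2 n1 ha3 hb2 hε
  have q3 := perr n2 p1 ha3 hb1 hε
  have q4 := perr n1 n0 ha1 hb3 hε
  have q5 := perr n1 n1 ha1 hb2 hε
  have q6 := perr n1 p1 ha2 hb1 hε
  have r1 := terr (d := ((-1 + a2) * (0 + b3) - (-2 + a3) * (-1 + b2)) + 2) ht0 h1 (by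
    rw [abs_le] at *; constructor <;> linarith [q1.1, q1.2, q2.1, q2.2])
  have r2 := terr (d := ((-2 + a3) * (1 + b1) - (-1 + a1) * (0 + b3)) + 2) ht0 h2 (by
    rw [abs_le] at *; constructor <;> linarith [q3.1, q3.2, q4.1, q4.2])
  have r3 := terr (d := ((-1 + a1) * (-1 + b2) - (-1 + a2) * (1 + b1)) - 2) ht0 h3 (by
    rw [abs_le] at *; constructor <;> linarith [q5.1, q5.2, q6.1, q6.2])
  rw [abs_le] at r1 r2 r3 ⊢
  constructor <;> linarith [r1.1, r1.2, r2.1, r2.2, r3.1, r3.2]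

theorem xdiff {s : ℝ} (hs : 10 ^ 8 ≤ s) {u : E} (hu : ‖u‖ ≤ 1) (i j : Fin 4) :
    |(base s + u) j 0 - (base s + u) i 0| ≤ 7 * s := by
  have e : (base s + u) j 0 - (base s + u) i 0 = s * (av j - av i) +
      (Real.log s * (bw j - bw i) + (cc j 0 - cc i 0) + (u j 0 - u i 0)) := by
    simp only [Pi.add_apply, PiLp.add_apply, base_x]; ring
  rw [e]
  have hs0 : 0 < s := by linarith
  have h1 : |av j - av i| ≤ 6 := by
    fin_cases i <;> fin_cases j <;> simp [av] <;> norm_num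
  have h2 : |bw j - bw i| ≤ 1 := by
    fin_cases i <;> fin_cases j <;> simp [bw] <;> norm_num [abs_le]
  have h3 : |cc j 0 - cc i 0| ≤ 2000 := by
    fin_cases i <;> fin_cases j <;> simp [cc]
  have h4 := u_coord hu i 0
  have h5 := u_coord hu j 0
  have hl0 : 0 ≤ Real.log s := Real.log_nonneg (by linarith)
  have hl := log_le_sqrt hs0
  obtain ⟨q1, q2⟩ := sqrt_facts hs
  have h6 : |Real.log s * (bw j - bw i)| ≤ Real.log s := by
    rw [abs_mul, abs_of_nonneg hl0]; nlinarith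
  have h7 : |s * (av j - av i)| ≤ 6 * s := by
    rw [abs_mul, abs_of_pos hs0]; nlinarith
  rw [abs_le] at *
  constructor <;> linarith [h6.1, h6.2, h3.1, h3.2, h4.1, h4.2, h5.1, h5.2, h7.1, h7.2]

theorem det_bd {s : ℝ} (hs : 10 ^ 8 ≤ s) {u : E} (hu : ‖u‖ ≤ 1)
    (hk : ∀ i k, k ≠ 0 → |u i k| ≤ 6 / s) :
    |Matrix.det (Matrix.of fun r k : Fin 3 => ((base s + u) r.succ - (base s + u) 0) k) - 8000|
      ≤ 2528 := by
  have hd : ∀ i k, k ≠ 0 → |u i k - u 0 k| ≤ 12 / s := by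
    intro i k h
    have h1 := hk i k h
    have h2 := hk 0 k h
    have e : 12 / s = 6 / s + 6 / s := by ring
    rw [e]; exact (abs_sub _ _).trans (add_le_add h1 h2)
  have key := det_est (t := s) (by linarith) (xdiff hs hu 0 1) (xdiff hs hu 0 2) (xdiff hs hu 0 3)
    (hd 1 1 (by decide)) (hd 2 1 (by decide)) (hd 3 1 (by decide))
    (hd 1 2 (by decide)) (hd 2 2 (by decide)) (hd 3 2 (by decide))
  have t1 : ∀ i, base s i 1 = cc i 1 := fun i => base_t s i (by decide)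
  have t2 : ∀ i, base s i 2 = cc i 2 := fun i => base_t s i (by decide)
  have m : 2 * ((base s + u) 3 0 - (base s + u) 0 0) - 2 * ((base s + u) 1 0 - (base s + u) 0 0)
      - 2 * ((base s + u) 2 0 - (base s + u) 0 0) = 8000 + 2 * (u 0 0 + u 3 0 - u 1 0 - u 2 0) := by
    simp only [Pi.add_apply, PiLp.add_apply, base_x]
    simp [av, bw, cc]; ring
  rw [m] at key
  rw [Matrix.det_fin_three]
  simp only [Matrix.of_apply, PiLp.sub_apply]
  have s0 : (0 : Fin 3).succ = (1 : Fin 4) := rfl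
  have s1 : (1 : Fin 3).succ = (2 : Fin 4) := rfl
  have s2 : (2 : Fin 3).succ = (3 : Fin 4) := rfl
  rw [s0, s1, s2]
  generalize (base s + u) 1 0 - (base s + u) 0 0 = x1 at key ⊢
  generalize (base s + u) 2 0 - (base s + u) 0 0 = x2 at key ⊢
  generalize (base s + u) 3 0 - (base s + u) 0 0 = x3 at key ⊢
  simp only [Pi.add_apply, PiLp.add_apply, t1, t2]
  have c01 : cc 0 1 = 1 := by simp [cc]
  have c11 : cc 1 1 = 0 := by simp [cc]
  have c21 : cc 2 1 = 0 := by simp [cc]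
  have c31 : cc 3 1 = -1 := by simp [cc]
  have c02 : cc 0 2 = 0 := by simp [cc]
  have c12 : cc 1 2 = 1 := by simp [cc]
  have c22 : cc 2 2 = -1 := by simp [cc]
  have c32 : cc 3 2 = 0 := by simp [cc]
  rw [c01, c11, c21, c31, c02, c12, c22, c32]
  have u0 := u_coord hu 0 0
  have u1 := u_coord hu 1 0
  have u2 := u_coord hu 2 0
  have u3 := u_coord hu 3 0
  rw [abs_le] at key u0 u1 u2 u3 ⊢
  constructor <;> linarith [key.1, key.2, u0.1, u0.2, u1.1, u1.2, u2.1, u2.2, u3.1, u3.2]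

theorem exists_q : ∃ q p : ℝ → E, ∀ t, 10 ^ 8 ≤ t → HasDerivAt q (p t) t ∧
    HasDerivAt p (F (q t)) t ∧ Sep t (q t) ∧
    |Matrix.det (Matrix.of fun r k : Fin 3 => (q t r.succ - q t 0) k) - 8000| ≤ 2528 := by
  obtain ⟨U, P, h⟩ := exists_U
  refine ⟨fun t => base t + U t, fun t => vv + t⁻¹ • ww + P t, fun t ht => ?_⟩
  obtain ⟨h1, h2, h3, h4⟩ := h t ht
  have ht0 : 0 < t := by linarith
  refine ⟨?_, ?_, sep_base ht h3, det_bd ht h3 h4⟩
  · refine HasDerivAt.add ?_ h1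
    unfold base
    have a1 := ((hasDerivAt_id t).smul_const vv)
    have a2 := ((Real.hasDerivAt_log ht0.ne').smul_const ww)
    have := (a1.add a2).add_const cc
    simpa using this
  · have a2 := ((hasDerivAt_inv ht0.ne').smul_const ww).const_add vv
    have e : F (base t + U t) = (-(t ^ 2)⁻¹) • ww + G t (U t) := by
      unfold G
      rw [F_vv ht0]
      simp
    rw [e]
    exact a2.add h2

end Pool.Agent.H.Hyp4
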